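import Pool.Agent.J6H60.FV.Stm

/-!
# [FV2-GL2] lower bound for the integral of the weights
-/

set_option autoImplicit false

open MeasureTheory Set

namespace Pool.Agent.J6H73.FV

open Pool.Agent.W716.FV Pool.Agent.J6H60.FV

/-- the smooth part of the weight -/
noncomputable def w0 {n : ℕ} (η : E n) (z : ℝ × E n) : ℝ :=
  Real.exp (-‖η‖ ^ 2 / 2 - inner ℝ z.2 η - 47 / 10 * z.1)

lemma w0_meas {n : ℕ} : Measurable (fun p : E n × (ℝ × E n) => ENNReal.ofReal (w0 p.1 p.2)) := by
  apply ENNReal.measurable_ofReal.comp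
  apply Continuous.measurable
  unfold w0
  fun_prop

/-- the Gaussian integral -/
lemma int_w0 {n : ℕ} (z : ℝ × E n) :
    ENNReal.ofReal (√(2 * Real.pi) ^ n * Real.exp (-(47 / 10 * z.1))) ≤
      ∫⁻ η : E n, ENNReal.ofReal (w0 η z) := by
  have h1 : ∫ v : E n, Real.exp (-(1 / 2) * ‖v‖ ^ 2) = √(2 * Real.pi) ^ n := by
    rw [GaussianFourier.integral_rexp_neg_mul_sq_norm (by norm_num)]
    rw [Real.sqrt_eq_rpow, ← Real.rpow_natCast, ← Real.rpow_mul (by positivity)]
    congr 1
    · ring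
    · simp
      ring
  have hint : Integrable (fun v : E n => Real.exp (-(1 / 2) * ‖v‖ ^ 2)) := by
    by_contra hc
    rw [integral_undef hc] at h1
    have : (0 : ℝ) < √(2 * Real.pi) ^ n := by positivity
    linarith
  have h2 : ∫⁻ v : E n, ENNReal.ofReal (Real.exp (-(1 / 2) * ‖v‖ ^ 2)) =
      ENNReal.ofReal (√(2 * Real.pi) ^ n) := by
    rw [← h1, ofReal_integral_eq_lintegral_ofReal hint]
    exact Filter.Eventually.of_forall fun _ => (Real.exp_pos _).le
  have h3 : ∫⁻ v : E n, ENNReal.ofReal (Real.exp (-(1 / 2) * ‖v + z.2‖ ^ 2)) =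
      ENNReal.ofReal (√(2 * Real.pi) ^ n) := by
    rw [← h2]
    exact lintegral_add_right_eq_self
      (fun v : E n => ENNReal.ofReal (Real.exp (-(1 / 2) * ‖v‖ ^ 2))) z.2
  rw [ENNReal.ofReal_mul (by positivity), ← h3, mul_comm,
    ← lintegral_const_mul _ (by fun_prop)]
  apply lintegral_mono
  intro v
  simp only
  rw [← ENNReal.ofReal_mul (Real.exp_pos _).le, ← Real.exp_add]
  apply ENNReal.ofReal_le_ofReal
  unfold w0
  apply Real.exp_le_exp.2
  have h4 : ‖v + z.2‖ ^ 2 = ‖v‖ ^ 2 + 2 * inner ℝ v z.2 + ‖z.2‖ ^ 2 := by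
    rw [@norm_add_sq ℝ]
    simp
  rw [h4, real_inner_comm]
  nlinarith [sq_nonneg ‖z.2‖]

/-- the integral over `s` -/
lemma int_s (a C : ℝ) (hC : 0 ≤ C) (ha : a ≤ 59 / 100) :
    ∫⁻ s in Set.Ioc a (59 / 100), ENNReal.ofReal (C * Real.exp (-(47 / 10 * s))) =
      ENNReal.ofReal (C * (10 / 47) * (Real.exp (-(47 / 10 * a)) - Real.exp (-(2773 / 1000)))) := by
  have h1 : ∫ s in a..(59 / 100), C * Real.exp (-(47 / 10 * s)) =
      C * (10 / 47) * (Real.exp (-(47 / 10 * a)) - Real.exp (-(2773 / 1000))) := by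
    have hd : ∀ s ∈ Set.uIcc a (59 / 100 : ℝ), HasDerivAt
        (fun s => -(C * (10 / 47)) * Real.exp (-(47 / 10 * s))) (C * Real.exp (-(47 / 10 * s))) s := by
      intro s _
      have := ((((hasDerivAt_id s).const_mul (47 / 10 : ℝ)).neg).exp).const_mul (-(C * (10 / 47)))
      have e : -(C * (10 / 47)) * (Real.exp (-(47 / 10 * s)) * -(47 / 10 * 1)) =
          C * Real.exp (-(47 / 10 * s)) := by ring
      rw [← e]
      exact this
    rw [intervalIntegral.integral_eq_sub_of_hasDerivAt hd]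
    · have : (-(47 / 10 * (59 / 100 : ℝ))) = -(2773 / 1000) := by norm_num
      rw [this]
      ring
    · apply Continuous.intervalIntegrable
      fun_prop
  rw [intervalIntegral.integral_of_le ha] at h1
  rw [← h1, ofReal_integral_eq_lintegral_ofReal]
  · apply (Continuous.integrableOn_Icc (by fun_prop)).mono_set Ioc_subset_Icc_self
  · exact Filter.Eventually.of_forall fun _ => mul_nonneg hC (Real.exp_pos _).le

theorem gl : GaussLower2 := by
  intro n ε hε hε2
  set C : ℝ := √(2 * Real.pi) ^ n with hC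
  have hC0 : 0 ≤ C := by positivity
  set A : Set (ℝ × E n) := {z : ℝ × E n | ‖z.2‖ ^ 2 / 6 < z.1} with hA
  set B : Set (ℝ × E n) := {z : ℝ × E n | ‖z.2‖ ≤ ε ∧ z.1 ≤ 59 / 100} with hB
  have hAm : MeasurableSet A := by
    apply IsOpen.measurableSet
    exact isOpen_lt (by fun_prop) (by fun_prop)
  have hBm : MeasurableSet B := by
    have c1 : IsClosed {z : ℝ × E n | ‖z.2‖ ≤ ε} := isClosed_le (by fun_prop) (by fun_prop)
    have c2 : IsClosed {z : ℝ × E n | z.1 ≤ 59 / 100} := isClosed_le (by fun_prop) (by fun_prop)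
    exact (c1.inter c2).measurableSet
  -- the weight as an indicator
  have hw : ∀ (η : E n) (z : ℝ × E n), ENNReal.ofReal (wt2 ε η z) =
      B.indicator (fun z => ENNReal.ofReal (w0 η z)) z := by
    intro η z
    unfold wt2
    by_cases hz : z ∈ B
    · have hz' : ‖z.2‖ ≤ ε ∧ z.1 ≤ 59 / 100 := hz
      rw [indicator_of_mem hz, if_pos hz']
      rfl
    · have hz' : ¬ (‖z.2‖ ≤ ε ∧ z.1 ≤ 59 / 100) := hz
      rw [indicator_of_notMem hz, if_neg hz']
      simp
  have h1 : ∫⁻ η : E n, ∫⁻ z in A, ENNReal.ofReal (wt2 ε η z) =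
      ∫⁻ η : E n, ∫⁻ z in A ∩ B, ENNReal.ofReal (w0 η z) := by
    congr 1
    funext η
    simp_rw [hw]
    rw [lintegral_indicator hBm, Measure.restrict_restrict hBm, inter_comm]
  have h2 : ∫⁻ η : E n, ∫⁻ z in A ∩ B, ENNReal.ofReal (w0 η z) =
      ∫⁻ z in A ∩ B, ∫⁻ η : E n, ENNReal.ofReal (w0 η z) := by
    apply lintegral_lintegral_swap
    exact w0_meas.aemeasurable
  rw [h1, h2]
  have h3 : ∫⁻ z in A ∩ B, ENNReal.ofReal (C * Real.exp (-(47 / 10 * z.1))) ≤
      ∫⁻ z in A ∩ B, ∫⁻ η : E n, ENNReal.ofReal (w0 η z) := by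
    apply lintegral_mono
    intro z
    exact int_w0 z
  refine le_trans ?_ h3
  have hABm : MeasurableSet (A ∩ B) := hAm.inter hBm
  rw [← lintegral_indicator hABm]
  have hfm : Measurable ((A ∩ B).indicator
      fun z : ℝ × E n => ENNReal.ofReal (C * Real.exp (-(47 / 10 * z.1)))) := by
    apply Measurable.indicator _ hABm
    fun_prop
  rw [Measure.volume_eq_prod, lintegral_prod_symm _ hfm.aemeasurable]
  -- restrict to the ball
  have h4 : ∀ τ : E n, (Metric.closedBall (0 : E n) ε).indicator (fun _ =>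
      ENNReal.ofReal (C * (10 / 47) * (Real.exp (-(47 / 60) * ε ^ 2) - Real.exp (-(2773 / 1000))))) τ ≤
      ∫⁻ s : ℝ, (A ∩ B).indicator
        (fun z : ℝ × E n => ENNReal.ofReal (C * Real.exp (-(47 / 10 * z.1)))) (s, τ) := by
    intro τ
    by_cases hτ : τ ∈ Metric.closedBall (0 : E n) ε
    · rw [indicator_of_mem hτ]
      rw [mem_closedBall_zero_iff] at hτ
      have hτ2 : ‖τ‖ ^ 2 ≤ ε ^ 2 := by
        have := norm_nonneg τ
        nlinarith
      have ha : ‖τ‖ ^ 2 / 6 ≤ 59 / 100 := by nlinarith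
      have h5 := int_s (‖τ‖ ^ 2 / 6) C hC0 ha
      have h6 : ∀ s : ℝ, (A ∩ B).indicator
          (fun z : ℝ × E n => ENNReal.ofReal (C * Real.exp (-(47 / 10 * z.1)))) (s, τ) =
          (Set.Ioc (‖τ‖ ^ 2 / 6) (59 / 100 : ℝ)).indicator
            (fun s => ENNReal.ofReal (C * Real.exp (-(47 / 10 * s)))) s := by
        intro s
        by_cases hs : s ∈ Set.Ioc (‖τ‖ ^ 2 / 6) (59 / 100 : ℝ)
        · rw [indicator_of_mem hs, indicator_of_mem]
          exact ⟨hs.1, hτ, hs.2⟩
        · rw [indicator_of_notMem hs, indicator_of_notMem]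
          rintro ⟨h7, _, h8⟩
          exact hs ⟨h7, h8⟩
      simp_rw [h6]
      rw [lintegral_indicator measurableSet_Ioc, h5]
      apply ENNReal.ofReal_le_ofReal
      apply mul_le_mul_of_nonneg_left _ (by positivity)
      apply sub_le_sub_right
      apply Real.exp_le_exp.2
      nlinarith
    · rw [indicator_of_notMem hτ]
      exact zero_le
  calc _ = ∫⁻ τ : E n, (Metric.closedBall (0 : E n) ε).indicator (fun _ =>
      ENNReal.ofReal (C * (10 / 47) * (Real.exp (-(47 / 60) * ε ^ 2) - Real.exp (-(2773 / 1000))))) τ := by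
        rw [lintegral_indicator Metric.isClosed_closedBall.measurableSet, lintegral_const,
          Measure.restrict_apply_univ]
    _ ≤ _ := lintegral_mono h4

theorem nf : NumFinal2 := by
  unfold NumFinal2
  have h1 : (1.73205 : ℝ) ≤ √3 := by
    apply Real.le_sqrt_of_sq_le
    norm_num
  have h2 : (1.64872 : ℝ) ≤ Real.exp (1 / 2) := by
    refine le_trans ?_ (Real.sum_le_exp_of_nonneg (by norm_num) 9)
    simp only [Finset.sum_range_succ, Finset.sum_range_zero, Nat.factorial]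
    norm_num
  have h3 : (0.99804 : ℝ) ≤ Real.exp (-(47 / 60) * (1 / 20) ^ 2) := by
    refine le_trans ?_ (Real.add_one_le_exp _)
    norm_num
  have h4 : (15.9 : ℝ) ≤ Real.exp (2773 / 1000) := by
    refine le_trans ?_ (Real.sum_le_exp_of_nonneg (by norm_num) 14)
    simp only [Finset.sum_range_succ, Finset.sum_range_zero, Nat.factorial]
    norm_num
  have h5 : Real.exp (-(2773 / 1000)) ≤ 0.0629 := by
    rw [Real.exp_neg]
    refine (inv_anti₀ (by norm_num) h4).trans ?_
    norm_num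
  have h6 : √(2 * Real.pi) ≤ 2.50663 := by
    rw [Real.sqrt_le_left (by norm_num)]
    have := Real.pi_lt_d6
    norm_num at this ⊢
    linarith
  have h7 : 0 < √(2 * Real.pi) := Real.sqrt_pos.2 (by positivity)
  rw [le_div_iff₀ h7]
  have h8 : (0.93514 : ℝ) ≤ Real.exp (-(47 / 60) * (1 / 20) ^ 2) - Real.exp (-(2773 / 1000)) := by
    linarith
  calc 9 / 40 * √(2 * Real.pi) ≤ 9 / 40 * 2.50663 := by linarith
    _ ≤ 1.73205 * 1.64872 * (10 / 47) * 0.93514 := by norm_num
    _ ≤ _ := by gcongr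

end Pool.Agent.J6H73.FV
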